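import Mathlib

/-! MP_420c7c_nt, density theorem: products of the elements `1 + ζ ^ a`. -/

set_option autoImplicit false
open Polynomial Finset

namespace Pool.Agent.W_420c7c_h24

/-- The congruence `(1+X)^n ≡ 1+X^n` modulo `(n, X^r-1)`. -/
def Cong (n r : ℕ) : Prop :=
  ((X : (ZMod n)[X]) ^ r - 1) ∣ ((1 + X) ^ n - (1 + X ^ n))

/-! ### Independence of the polynomials `1 + X ^ (a + 1)` -/

section indep

variable {F : Type*} [Field F]

/-- the product polynomial -/
noncomputable def PP (F : Type*) [Field F] (S : Finset ℕ) : F[X] := ∏ a ∈ S, (1 + X ^ (a + 1))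

theorem PP_dvd (k : ℕ) (S : Finset ℕ) (h : ∀ a ∈ S, k ≤ a) :
    (X : F[X]) ^ (k + 1) ∣ PP F S - 1 := by
  induction S using Finset.induction_on with
  | empty => simp [PP]
  | insert a S ha ih =>
    have h1 := ih fun b hb => h b (mem_insert_of_mem hb)
    have h2 : (X : F[X]) ^ (k + 1) ∣ X ^ (a + 1) :=
      pow_dvd_pow _ (by have := h a (mem_insert_self _ _); omega)
    have e : PP F (insert a S) - 1 = (PP F S - 1) + X ^ (a + 1) * PP F S := by
      unfold PP
      rw [prod_insert ha]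
      ring
    rw [e]
    exact dvd_add h1 (h2.mul_right _)

theorem PP_ne_zero (S : Finset ℕ) : PP F S ≠ 0 := by
  intro h
  have h1 := PP_dvd (F := F) 0 S (fun _ _ => Nat.zero_le _)
  rw [h, zero_add, pow_one, zero_sub, dvd_neg] at h1
  exact not_isUnit_X (isUnit_of_dvd_one h1)

theorem PP_inj_aux {S T : Finset ℕ} (h : PP F S = PP F T) (a : ℕ) (haS : a ∈ S) (haT : a ∉ T)
    (hmin : ∀ b < a, (b ∈ S ↔ b ∈ T)) : False := by
  have e1 : ∀ U : Finset ℕ, PP F U = PP F (U.filter (· < a)) * PP F (U.filter (¬ · < a)) := by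
    intro U
    unfold PP
    rw [prod_filter_mul_prod_filter_not]
  have e2 : S.filter (· < a) = T.filter (· < a) := by
    ext b
    simp only [mem_filter]
    constructor
    · rintro ⟨h1, h2⟩
      exact ⟨(hmin b h2).1 h1, h2⟩
    · rintro ⟨h1, h2⟩
      exact ⟨(hmin b h2).2 h1, h2⟩
  rw [e1 S, e1 T, e2] at h
  have h2 := mul_left_cancel₀ (PP_ne_zero _) h
  have h3 : (X : F[X]) ^ (a + 1 + 1) ∣ PP F (T.filter (¬ · < a)) - 1 := by
    refine PP_dvd (a + 1) _ fun b hb => ?_
    rw [mem_filter] at hb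
    rcases Nat.lt_or_ge a b with h3 | h3
    · exact h3
    · exact absurd (by have h4 : b = a := by omega
                       rw [← h4]
                       exact hb.1) haT
  have e3 : S.filter (¬ · < a) = insert a (S.filter (a < ·)) := by
    ext b
    simp only [mem_filter, mem_insert]
    constructor
    · rintro ⟨h4, h5⟩
      rcases Nat.eq_or_lt_of_le (not_lt.1 h5) with h6 | h6
      · exact Or.inl h6.symm
      · exact Or.inr ⟨h4, h6⟩
    · rintro (h4 | ⟨h4, h5⟩)
      · rw [h4]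
        exact ⟨haS, lt_irrefl a⟩
      · exact ⟨h4, by omega⟩
  have h4 : (X : F[X]) ^ (a + 1 + 1) ∣ PP F (S.filter (a < ·)) - 1 := by
    refine PP_dvd (a + 1) _ fun b hb => ?_
    rw [mem_filter] at hb
    exact hb.2
  have e4 : PP F (S.filter (¬ · < a)) =
      (1 + X ^ (a + 1)) * PP F (S.filter (a < ·)) := by
    rw [e3]
    unfold PP
    rw [prod_insert (by simp)]
  rw [e4] at h2
  rw [← h2] at h3
  have h5 : (X : F[X]) ^ (a + 1 + 1) ∣ X ^ (a + 1) := by
    have e5 : (X : F[X]) ^ (a + 1) = ((1 + X ^ (a + 1)) * PP F (S.filter (a < ·)) - 1) -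
        (1 + X ^ (a + 1)) * (PP F (S.filter (a < ·)) - 1) := by ring
    rw [e5]
    exact dvd_sub h3 (h4.mul_left _)
  have h6 := (pow_dvd_pow_iff (X_ne_zero (R := F)) not_isUnit_X).1 h5
  omega

theorem PP_inj {S T : Finset ℕ} (h : PP F S = PP F T) : S = T := by
  by_contra hne
  have h1 : ∃ a, ¬ (a ∈ S ↔ a ∈ T) := by
    by_contra h2
    push Not at h2
    exact hne (Finset.ext h2)
  classical
  have h3 := Nat.find_spec h1
  have h4 : ∀ b < Nat.find h1, (b ∈ S ↔ b ∈ T) := fun b hb => not_not.1 (Nat.find_min h1 hb)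
  by_cases h5 : Nat.find h1 ∈ S
  · exact PP_inj_aux h _ h5 (fun h6 => h3 ⟨fun _ => h6, fun _ => h5⟩) h4
  · have h6 : Nat.find h1 ∈ T := by
      by_contra h7
      exact h3 ⟨fun h8 => absurd h8 h5, fun h8 => absurd h8 h7⟩
    exact PP_inj_aux h.symm _ h6 h5 fun b hb => (h4 b hb).symm

theorem PP_eval_zero (S : Finset ℕ) : (PP F S).eval 0 = 1 := by
  unfold PP
  rw [eval_prod]
  refine prod_eq_one fun a _ => ?_
  simp

theorem PP_natDegree (S : Finset ℕ) (A : ℕ) (h : S ⊆ range A) :
    (PP F S).natDegree ≤ A * A := by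
  unfold PP
  refine (natDegree_prod_le _ _).trans ?_
  have h1 : ∑ a ∈ S, natDegree (1 + X ^ (a + 1) : F[X]) ≤ ∑ a ∈ S, A := by
    refine sum_le_sum fun a ha => ?_
    have h2 := mem_range.1 (h ha)
    refine (natDegree_add_le _ _).trans ?_
    rw [natDegree_one, natDegree_X_pow]
    omega
  refine h1.trans ?_
  rw [sum_const, smul_eq_mul]
  refine Nat.mul_le_mul ?_ le_rfl
  simpa using card_le_card h

end indep

/-! ### The order modulo the square of a prime -/

/-- `q` is good for `n`: the order of `n` modulo `q ^ 2` is divisible by `q`. -/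
def IsGood (n q : ℕ) : Prop := ¬ q ∣ n ∧ ¬ n ^ (q - 1) ≡ 1 [MOD q ^ 2]

theorem good_ord {n q : ℕ} (hq : q.Prime) (hg : IsGood n q) {k : ℕ} (hk : n ^ k ≡ 1 [MOD q ^ 2]) :
    q ∣ k := by
  have hc : Nat.Coprime n (q ^ 2) := by
    refine Nat.Coprime.pow_right 2 ?_
    exact ((Nat.Prime.coprime_iff_not_dvd hq).2 hg.1).symm
  have _hne : NeZero (q ^ 2) := ⟨pow_ne_zero 2 hq.ne_zero⟩
  set u : (ZMod (q ^ 2))ˣ := ZMod.unitOfCoprime n hc with hu
  have hpow : ∀ j : ℕ, u ^ j = 1 ↔ n ^ j ≡ 1 [MOD q ^ 2] := by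
    intro j
    rw [← ZMod.natCast_eq_natCast_iff, Units.ext_iff]
    simp [hu]
  have h1 : orderOf u ∣ k := orderOf_dvd_of_pow_eq_one ((hpow k).2 hk)
  refine dvd_trans ?_ h1
  have h2 : orderOf u ∣ q * (q - 1) := by
    have h3 := orderOf_dvd_card (x := u)
    rw [ZMod.card_units_eq_totient, Nat.totient_prime_pow hq (by norm_num)] at h3
    simpa using h3
  by_contra h3
  have h4 : Nat.Coprime (orderOf u) q := ((Nat.Prime.coprime_iff_not_dvd hq).2 h3).symm
  have h5 := h4.dvd_of_dvd_mul_left h2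
  exact hg.2 ((hpow _).1 (orderOf_dvd_iff_pow_eq_one.1 h5))

theorem good_pow {n q D : ℕ} (hq : q.Prime) (hg : IsGood n q) (hD : ¬ q ∣ D) {i j : ℕ}
    (hi : i < q) (hj : j < q) (h : n ^ (D * i) ≡ n ^ (D * j) [MOD q ^ 2]) : i = j := by
  have hc : Nat.Coprime n (q ^ 2) := by
    refine Nat.Coprime.pow_right 2 ?_
    exact ((Nat.Prime.coprime_iff_not_dvd hq).2 hg.1).symm
  have key : ∀ a b : ℕ, a ≤ b → b < q → n ^ (D * a) ≡ n ^ (D * b) [MOD q ^ 2] → a = b := by
    intro a b hab hb h1
    have e : n ^ (D * b) = n ^ (D * a) * n ^ (D * (b - a)) := by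
      rw [← pow_add, ← mul_add, Nat.add_sub_cancel' hab]
    have h2 : n ^ (D * a) * n ^ (D * (b - a)) ≡ n ^ (D * a) * 1 [MOD q ^ 2] := by
      rw [← e, mul_one]
      exact h1.symm
    have h3 : n ^ (D * (b - a)) ≡ 1 [MOD q ^ 2] := by
      refine Nat.ModEq.cancel_left_of_coprime ?_ h2
      exact (Nat.Coprime.pow_left _ hc).symm
    have h4 := good_ord hq hg h3
    rcases (Nat.Prime.dvd_mul hq).1 h4 with h5 | h5
    · exact absurd h5 hD
    · have h6 := Nat.eq_zero_of_dvd_of_lt h5 (by omega)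
      omega
  rcases le_total i j with hij | hij
  · exact key i j hij hj h
  · exact (key j i hij hi h.symm).symm

/-! ### The triangular argument -/

section tri

variable {F : Type*} [Field F]

theorem iter_pow {n : ℕ} {z : F} (h : ∀ a : ℕ, (1 + z ^ a) ^ n = 1 + z ^ (a * n)) (k a : ℕ) :
    (1 + z ^ a) ^ (n ^ k) = 1 + z ^ (a * n ^ k) := by
  induction k with
  | zero => simp
  | succ k ih =>
    rw [pow_succ, pow_mul, ih, h, mul_assoc]

theorem prim_pow_eq {z : F} {k a b : ℕ} (hk : 0 < k) (hz : IsPrimitiveRoot z k) :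
    z ^ a = z ^ b ↔ a ≡ b [MOD k] := by
  have hz0 : z ≠ 0 := hz.ne_zero hk.ne'
  have key : ∀ a b : ℕ, a ≤ b → (z ^ a = z ^ b ↔ a ≡ b [MOD k]) := by
    intro a b hab
    rw [Nat.modEq_iff_dvd' hab, ← hz.pow_eq_one_iff_dvd]
    have e : z ^ b = z ^ a * z ^ (b - a) := by
      rw [← pow_add, Nat.add_sub_cancel' hab]
    rw [e]
    constructor
    · intro h
      exact (mul_left_cancel₀ (pow_ne_zero a hz0) (by rw [mul_one]; exact h)).symm
    · intro h
      rw [h, mul_one]
  rcases le_total a b with h | h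
  · exact key a b h
  · rw [eq_comm, key b a h]
    exact ⟨fun h => h.symm, fun h => h.symm⟩

open Classical in
theorem tri {n A : ℕ} {ζ : ℕ → F} (s : Finset ℕ) :
    (∀ q ∈ s, q.Prime) → (∀ q ∈ s, IsGood n q) → (∀ q ∈ s, IsPrimitiveRoot (ζ q) (q ^ 2)) →
    (∀ q ∈ s, ∀ a : ℕ, (1 + ζ q ^ a) ^ n = 1 + ζ q ^ (a * n)) →
    (∀ q ∈ s, A * A < q) → (∀ q ∈ s, ∀ a < A, 1 + ζ q ^ (a + 1) ≠ 0) →
    ∀ f g : ℕ → Finset ℕ, (∀ q ∈ s, f q ⊆ range A) → (∀ q ∈ s, g q ⊆ range A) →
      ∏ q ∈ s, ∏ a ∈ f q, (1 + ζ q ^ (a + 1)) = ∏ q ∈ s, ∏ a ∈ g q, (1 + ζ q ^ (a + 1)) →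
      ∀ q ∈ s, f q = g q := by
  induction s using Finset.induction_on_max with
  | empty => intro _ _ _ _ _ _ f g _ _ _ q hq; exact absurd hq (notMem_empty q)
  | insert l s hl ih =>
    intro hpr hgood hprim hcong hA hne f g hf hg heq
    have hls : l ∉ s := fun h => lt_irrefl l (hl l h)
    have hlI : l ∈ insert l s := mem_insert_self _ _
    have hsI : ∀ q ∈ s, q ∈ insert l s := fun q hq => mem_insert_of_mem hq
    rw [prod_insert hls, prod_insert hls] at heq
    set D : ℕ := ∏ q ∈ s, q * (q - 1) with hDdef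
    have hlD : ¬ l ∣ D := by
      intro h
      rw [hDdef, Prime.dvd_finsetProd_iff (hpr l hlI).prime] at h
      obtain ⟨q, hq, h⟩ := h
      have h1 := hl q hq
      have h2 := (hpr q (hsI q hq)).two_le
      rcases ((hpr l hlI).dvd_mul).1 h with h3 | h3
      · exact absurd (Nat.le_of_dvd (by omega) h3) (by omega)
      · exact absurd (Nat.le_of_dvd (by omega) h3) (by omega)
    -- the constants
    set c : F := ∏ q ∈ s, ∏ a ∈ f q, (1 + ζ q ^ (a + 1)) with hc
    set c' : F := ∏ q ∈ s, ∏ a ∈ g q, (1 + ζ q ^ (a + 1)) with hc'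
    have hfix : ∀ u : ℕ → Finset ℕ, ∀ j : ℕ,
        (∏ q ∈ s, ∏ a ∈ u q, (1 + ζ q ^ (a + 1))) ^ (n ^ (D * j)) =
          ∏ q ∈ s, ∏ a ∈ u q, (1 + ζ q ^ (a + 1)) := by
      intro u j
      rw [← prod_pow]
      refine prod_congr rfl fun q hq => ?_
      rw [← prod_pow]
      refine prod_congr rfl fun a _ => ?_
      rw [iter_pow (hcong q (hsI q hq))]
      congr 1
      have hq2 := hprim q (hsI q hq)
      have h1 : n ^ (D * j) ≡ 1 [MOD q ^ 2] := by
        have hcop : Nat.Coprime n (q ^ 2) := by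
          refine Nat.Coprime.pow_right 2 ?_
          exact ((Nat.Prime.coprime_iff_not_dvd (hpr q (hsI q hq))).2
            (hgood q (hsI q hq)).1).symm
        have h2 : (q ^ 2).totient ∣ D * j := by
          rw [Nat.totient_prime_pow (hpr q (hsI q hq)) (by norm_num)]
          have h3 : q ^ (2 - 1) * (q - 1) = q * (q - 1) := by norm_num
          rw [h3]
          exact (dvd_prod_of_mem (fun q => q * (q - 1)) hq).mul_right _
        obtain ⟨t, ht⟩ := h2
        rw [ht, pow_mul]
        simpa using (Nat.ModEq.pow_totient hcop).pow t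
      have h4 : ζ q ^ ((a + 1) * n ^ (D * j)) = ζ q ^ (a + 1) := by
        rw [pow_mul']
        have h5 : ζ q ^ (n ^ (D * j)) = ζ q := by
          have h6 := (prim_pow_eq (a := n ^ (D * j)) (b := 1)
            (pow_pos (hpr q (hsI q hq)).pos 2) hq2).2 h1
          rwa [pow_one] at h6
        rw [h5]
      exact h4
    have heval : ∀ S : Finset ℕ, ∀ j : ℕ,
        (∏ a ∈ S, (1 + ζ l ^ (a + 1))) ^ (n ^ (D * j)) = (PP F S).eval (ζ l ^ (n ^ (D * j))) := by
      intro S j
      unfold PP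
      rw [eval_prod, ← prod_pow]
      refine prod_congr rfl fun a _ => ?_
      rw [iter_pow (hcong l hlI)]
      simp only [eval_add, eval_one, eval_pow, eval_X]
      rw [← pow_mul, Nat.mul_comm (a + 1)]
    have hroot : ∀ j : ℕ, (C c * PP F (f l) - C c' * PP F (g l)).eval
        (ζ l ^ (n ^ (D * j))) = 0 := by
      intro j
      rw [eval_sub, eval_mul, eval_mul, eval_C, eval_C, ← heval, ← heval]
      have h1 := congrArg (fun z => z ^ (n ^ (D * j))) heq
      simp only [mul_pow] at h1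
      rw [hc, hc', hfix f j, hfix g j] at h1
      rw [sub_eq_zero, mul_comm, h1, mul_comm]
    have hzero : C c * PP F (f l) - C c' * PP F (g l) = 0 := by
      by_contra hne0
      have h1 : l ≤ (C c * PP F (f l) - C c' * PP F (g l)).natDegree := by
        have h2 : (range l).card ≤ (C c * PP F (f l) - C c' * PP F (g l)).roots.toFinset.card := by
          refine card_le_card_of_injOn (fun j => ζ l ^ (n ^ (D * j))) ?_ ?_
          · intro j _
            rw [mem_coe, Multiset.mem_toFinset, mem_roots hne0]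
            exact hroot j
          · intro i hi j hj hij
            rw [mem_coe, mem_range] at hi hj
            refine good_pow (hpr l hlI) (hgood l hlI) hlD hi hj ?_
            exact (prim_pow_eq (pow_pos (hpr l hlI).pos 2) (hprim l hlI)).1 hij
        rw [card_range] at h2
        exact h2.trans ((Multiset.toFinset_card_le _).trans (card_roots' _))
      have h4 : (C c * PP F (f l) - C c' * PP F (g l)).natDegree ≤ A * A := by
        refine (natDegree_sub_le _ _).trans (max_le ?_ ?_)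
        · exact (natDegree_C_mul_le _ _).trans (PP_natDegree _ _ (hf l hlI))
        · exact (natDegree_C_mul_le _ _).trans (PP_natDegree _ _ (hg l hlI))
      have h5 := hA l hlI
      omega
    have hcc : c = c' := by
      have h1 := congrArg (fun P => P.eval 0) hzero
      simp only [eval_sub, eval_mul, eval_C, PP_eval_zero, mul_one, eval_zero] at h1
      exact sub_eq_zero.1 h1
    have hc0 : c ≠ 0 := by
      rw [hc]
      refine prod_ne_zero_iff.2 fun q hq => prod_ne_zero_iff.2 fun a ha => ?_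
      exact hne q (hsI q hq) a (mem_range.1 (hf q (hsI q hq) ha))
    have hPP : PP F (f l) = PP F (g l) := by
      rw [← hcc, ← mul_sub] at hzero
      rcases mul_eq_zero.1 hzero with h1 | h1
      · exact absurd (C_eq_zero.1 h1) hc0
      · exact sub_eq_zero.1 h1
    intro q hq
    rcases mem_insert.1 hq with rfl | hq'
    · exact PP_inj hPP
    · exact ih (fun q hq => hpr q (hsI q hq)) (fun q hq => hgood q (hsI q hq))
        (fun q hq => hprim q (hsI q hq)) (fun q hq => hcong q (hsI q hq))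
        (fun q hq => hA q (hsI q hq)) (fun q hq => hne q (hsI q hq)) f g
        (fun q hq => hf q (hsI q hq)) (fun q hq => hg q (hsI q hq)) hcc q hq'

end tri

end Pool.Agent.W_420c7c_h24
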