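import Pool.Agent.W_420c7c_h24.A

/-! MP_420c7c_nt, density theorem: small prime factors. -/

set_option autoImplicit false
open Polynomial Finset

namespace Pool.Agent.W_420c7c_h24

/-- If `q` divides `n` exactly once, then the congruence modulo `X^(q²)-1` gives `n / q ≡ 1` modulo
`q`. -/
theorem dvd_class {n q : ℕ} (hq : q.Prime) (hq3 : 3 ≤ q) (hqn : q ∣ n) (h : Cong n (q ^ 2)) :
    n % q ^ 2 = 0 ∨ n % q ^ 2 = q := by
  have hf : Fact q.Prime := ⟨hq⟩
  obtain ⟨m, rfl⟩ := hqn
  by_cases hqm : q ∣ m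
  · left
    obtain ⟨k, rfl⟩ := hqm
    rw [← mul_assoc, ← pow_two, Nat.mul_mod_right]
  right
  -- the congruence over the field with q elements
  obtain ⟨Q, hQ⟩ := h
  have h1 := congrArg (eval₂RingHom ((C : ZMod q →+* (ZMod q)[X]).comp
    (ZMod.castHom (Dvd.intro m rfl) (ZMod q))) (1 + X)) hQ
  simp only [map_sub, map_add, map_pow, map_one, map_mul, coe_eval₂RingHom, eval₂_X] at h1
  set P := eval₂ ((C : ZMod q →+* (ZMod q)[X]).comp
    (ZMod.castHom (Dvd.intro m rfl) (ZMod q))) (1 + X) Q with hP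
  have e1 : ((1 : (ZMod q)[X]) + X) ^ q ^ 2 - 1 = X ^ q ^ 2 := by
    rw [add_pow_char_pow, one_pow, add_sub_cancel_left]
  have hC2 : (1 : (ZMod q)[X]) + (1 + X) = C 2 + X := by
    rw [← add_assoc]
    congr 1
    rw [← C_1, ← C_add]
    congr 1
    norm_num
  have hCp : ∀ c : ZMod q, (C c : (ZMod q)[X]) ^ q = C c := by
    intro c
    rw [← C_pow, ZMod.pow_card]
  set H : (ZMod q)[X] := (C 2 + X) ^ m - (1 + (1 + X) ^ m) with hH
  have e2 : ((1 : (ZMod q)[X]) + (1 + X)) ^ (q * m) - (1 + (1 + X) ^ (q * m)) =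
      expand (ZMod q) q H := by
    rw [hC2, hH, map_sub, map_add, map_pow, map_pow, map_add, map_add, map_one, expand_C, expand_X,
      pow_mul, pow_mul, add_pow_char (p := q) (C 2) X, add_pow_char (p := q) 1 X, hCp, one_pow]
  rw [e2, e1] at h1
  have hco : ∀ i : ℕ, i < q → H.coeff i = 0 := by
    intro i hi
    have h2 : (expand (ZMod q) q H).coeff (i * q) = H.coeff i := by
      rw [coeff_expand hq.pos, if_pos (Dvd.intro_left i rfl), Nat.mul_div_cancel _ hq.pos]
    rw [← h2, h1, coeff_X_pow_mul', if_neg]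
    rw [not_le, pow_two]
    exact (Nat.mul_lt_mul_right hq.pos).2 hi
  have hc : ∀ i : ℕ, H.coeff i = (2 : ZMod q) ^ (m - i) * (m.choose i : ZMod q) -
      ((if i = 0 then 1 else 0) + (m.choose i : ZMod q)) := by
    intro i
    rw [hH, coeff_sub, coeff_add, coeff_one, add_comm (C 2) X, coeff_X_add_C_pow,
      coeff_one_add_X_pow]
  have hm0 : (m : ZMod q) ≠ 0 := by
    intro h2
    exact hqm ((ZMod.natCast_eq_zero_iff m q).1 h2)
  have hm1 : 1 ≤ m := by
    rcases Nat.eq_zero_or_pos m with h2 | h2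
    · exact absurd (h2 ▸ dvd_zero q) hqm
    · exact h2
  have h3 : (2 : ZMod q) ^ (m - 1) = 1 := by
    have h2 := hco 1 (by omega)
    rw [hc 1, if_neg (by norm_num), zero_add, Nat.choose_one_right] at h2
    have h4 : ((2 : ZMod q) ^ (m - 1) - 1) * m = 0 := by
      rw [sub_mul, one_mul]
      exact h2
    rcases mul_eq_zero.1 h4 with h5 | h5
    · exact sub_eq_zero.1 h5
    · exact absurd h5 hm0
  have hm : (m : ZMod q) - 1 = 0 := by
    rcases Nat.lt_or_ge m 2 with h2 | h2
    · have h4 : m = 1 := by omega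
      rw [h4, Nat.cast_one, sub_self]
    · have h4 := hco 2 (by omega)
      rw [hc 2, if_neg (by norm_num), zero_add] at h4
      have h5 : ((2 : ZMod q) ^ (m - 2) - 1) * (m.choose 2 : ZMod q) = 0 := by
        rw [sub_mul, one_mul]
        exact h4
      have h6 : (2 : ZMod q) ^ (m - 2) - 1 ≠ 0 := by
        intro h7
        have h8 : (2 : ZMod q) ^ (m - 1) = 2 ^ (m - 2) * 2 := by
          rw [← pow_succ]
          congr 1
          omega
        rw [h3, sub_eq_zero.1 h7, one_mul] at h8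
        have h9 : ((1 : ℕ) : ZMod q) = 0 := by
          have h10 : (2 : ZMod q) - 1 = 0 := by rw [← h8, sub_self]
          rw [Nat.cast_one, ← h10]
          norm_num
        have h10 := Nat.le_of_dvd (by norm_num) ((ZMod.natCast_eq_zero_iff 1 q).1 h9)
        omega
      have h7 : (m.choose 2 : ZMod q) = 0 := (mul_eq_zero.1 h5).resolve_left h6
      have h8 : (m : ZMod q) * ((m : ZMod q) - 1) = 0 := by
        have h9 : m * (m - 1) = m.choose 2 * 2 := by
          rw [Nat.choose_two_right, Nat.div_mul_cancel]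
          exact (Nat.even_mul_pred_self m).two_dvd
        have h10 : ((m * (m - 1) : ℕ) : ZMod q) = 0 := by
          rw [h9, Nat.cast_mul, h7, zero_mul]
        rw [Nat.cast_mul, Nat.cast_sub hm1, Nat.cast_one] at h10
        exact h10
      exact (mul_eq_zero.1 h8).resolve_left hm0
  have h4 : q ∣ m - 1 := by
    rw [← ZMod.natCast_eq_zero_iff, Nat.cast_sub hm1, Nat.cast_one]
    exact hm
  obtain ⟨k, hk⟩ := h4
  have e3 : q * m = q + q ^ 2 * k := by
    have h5 : m = 1 + q * k := by omega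
    rw [h5]
    ring
  rw [e3, Nat.add_mul_mod_self_left, Nat.mod_eq_of_lt]
  rw [pow_two]
  calc q = q * 1 := (mul_one q).symm
    _ < q * q := (Nat.mul_lt_mul_left hq.pos).2 hq.one_lt

end Pool.Agent.W_420c7c_h24
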