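import Pool.Agent.W_420c7c_h24.A

/-! MP_420c7c_nt, density theorem: two solutions with a common prime factor and the same residues. -/

set_option autoImplicit false
open Polynomial Finset

namespace Pool.Agent.W_420c7c_h24

theorem cong_field {n r p : ℕ} {F : Type*} [Field F] [CharP F p] (hpn : p ∣ n) (h : Cong n r)
    (z : F) (hz : z ^ r = 1) : (1 + z) ^ n = 1 + z ^ n := by
  obtain ⟨Q, hQ⟩ := h
  have h1 := congrArg (eval₂RingHom (ZMod.castHom hpn F) z) hQ
  simp only [map_sub, map_add, map_pow, map_one, map_mul, coe_eval₂RingHom, eval₂_X] at h1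
  rw [hz, sub_self, zero_mul] at h1
  exact sub_eq_zero.1 h1

theorem exists_prim {p : ℕ} [Fact p.Prime] {m : ℕ} (hm0 : 0 < m) (hm : ¬ p ∣ m) :
    ∃ z : AlgebraicClosure (ZMod p), IsPrimitiveRoot z m := by
  have hne : NeZero (m : AlgebraicClosure (ZMod p)) := by
    refine ⟨fun h => hm ?_⟩
    exact (CharP.cast_eq_zero_iff (AlgebraicClosure (ZMod p)) p m).1 h
  have hdeg : (cyclotomic m (AlgebraicClosure (ZMod p))).degree ≠ 0 := by
    rw [degree_cyclotomic]
    have := Nat.totient_pos.2 hm0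
    exact_mod_cast this.ne'
  obtain ⟨z, hz⟩ := IsAlgClosed.exists_root _ hdeg
  exact ⟨z, isRoot_cyclotomic_iff.1 hz⟩

theorem uniq {p n₁ n₂ A : ℕ} (hp : p.Prime) (h1 : p ∣ n₁) (h2 : p ∣ n₂) (hlt : n₁ < n₂)
    (s : Finset ℕ) (hs : ∀ q ∈ s, q.Prime) (hgood : ∀ q ∈ s, IsGood n₁ q)
    (hA : ∀ q ∈ s, A * A < q) (hmod : ∀ q ∈ s, n₁ ≡ n₂ [MOD q ^ 2])
    (hc1 : ∀ q ∈ s, Cong n₁ (q ^ 2)) (hc2 : ∀ q ∈ s, Cong n₂ (q ^ 2)) :
    (2 ^ A) ^ s.card ≤ n₂ - n₁ := by
  classical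
  have hpf : Fact p.Prime := ⟨hp⟩
  have hex : ∀ q : ℕ, ∃ z : AlgebraicClosure (ZMod p), q ∈ s → IsPrimitiveRoot z (q ^ 2) := by
    intro q
    by_cases hq : q ∈ s
    · have hpq : ¬ p ∣ q ^ 2 := by
        intro h
        have h3 := hp.dvd_of_dvd_pow h
        rw [Nat.prime_dvd_prime_iff_eq hp (hs q hq)] at h3
        exact (hgood q hq).1 (h3 ▸ h1)
      obtain ⟨z, hz⟩ := exists_prim (pow_pos (hs q hq).pos 2) hpq
      exact ⟨z, fun _ => hz⟩
    · exact ⟨1, fun h => absurd h hq⟩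
  choose ζ hζ using hex
  have hne : ∀ q ∈ s, ∀ a < A, 1 + ζ q ^ (a + 1) ≠ 0 := by
    intro q hq a ha h0
    have h3 : ζ q ^ (a + 1) = -1 := eq_neg_of_add_eq_zero_right h0
    have h4 : ζ q ^ (2 * (a + 1)) = 1 := by
      rw [pow_mul', h3]
      norm_num
    have h5 : q ^ 2 ≤ 2 * (a + 1) :=
      Nat.le_of_dvd (by omega) (((hζ q hq).pow_eq_one_iff_dvd _).1 h4)
    have h6 := hA q hq
    have h7 := (hs q hq).two_le
    nlinarith
  have hcf1 : ∀ q ∈ s, ∀ a : ℕ, (1 + ζ q ^ a) ^ n₁ = 1 + ζ q ^ (a * n₁) := by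
    intro q hq a
    rw [cong_field h1 (hc1 q hq) (ζ q ^ a) (by rw [← pow_mul, mul_comm, pow_mul,
      (hζ q hq).pow_eq_one, one_pow]), ← pow_mul]
  have hcf2 : ∀ q ∈ s, ∀ a : ℕ, (1 + ζ q ^ a) ^ n₂ = 1 + ζ q ^ (a * n₂) := by
    intro q hq a
    rw [cong_field h2 (hc2 q hq) (ζ q ^ a) (by rw [← pow_mul, mul_comm, pow_mul,
      (hζ q hq).pow_eq_one, one_pow]), ← pow_mul]
  have hsame : ∀ q ∈ s, ∀ a : ℕ, (1 + ζ q ^ a) ^ n₁ = (1 + ζ q ^ a) ^ n₂ := by
    intro q hq a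
    rw [hcf1 q hq, hcf2 q hq]
    congr 1
    exact (prim_pow_eq (pow_pos (hs q hq).pos 2) (hζ q hq)).2 ((hmod q hq).mul_left a)
  -- the values
  let ext : (s → Finset ℕ) → ℕ → Finset ℕ := fun f q => if h : q ∈ s then f ⟨q, h⟩ else ∅
  let V : (s → Finset ℕ) → AlgebraicClosure (ZMod p) := fun f =>
    ∏ q ∈ s, ∏ a ∈ ext f q, (1 + ζ q ^ (a + 1))
  have hsub : ∀ f ∈ Fintype.piFinset (fun _ : s => (range A).powerset), ∀ q ∈ s,
      ext f q ⊆ range A := by
    intro f hf q hq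
    have h3 := Fintype.mem_piFinset.1 hf ⟨q, hq⟩
    rw [mem_powerset] at h3
    simp only [ext, dif_pos hq]
    exact h3
  have hcard : (Fintype.piFinset (fun _ : s => (range A).powerset)).card ≤
      (nthRoots (n₂ - n₁) (1 : AlgebraicClosure (ZMod p))).toFinset.card := by
    refine card_le_card_of_injOn V ?_ ?_
    · intro f hf
      rw [mem_coe, Multiset.mem_toFinset, mem_nthRoots (by omega)]
      have h0 : V f ≠ 0 := prod_ne_zero_iff.2 fun q hq => prod_ne_zero_iff.2 fun a ha =>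
        hne q hq a (mem_range.1 (hsub f hf q hq ha))
      have h3 : V f ^ n₁ = V f ^ n₂ := by
        simp only [V]
        rw [← prod_pow, ← prod_pow]
        refine prod_congr rfl fun q hq => ?_
        rw [← prod_pow, ← prod_pow]
        exact prod_congr rfl fun a _ => hsame q hq (a + 1)
      have e : V f ^ n₂ = V f ^ n₁ * V f ^ (n₂ - n₁) := by
        rw [← pow_add, Nat.add_sub_cancel' hlt.le]
      rw [e] at h3
      exact (mul_left_cancel₀ (pow_ne_zero n₁ h0) (by rw [mul_one]; exact h3)).symm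
    · intro f hf g hg hfg
      have h3 := tri s hs hgood hζ hcf1 hA hne (ext f) (ext g) (hsub f hf) (hsub g hg) hfg
      funext x
      have h4 := h3 x.1 x.2
      simp only [ext, dif_pos x.2] at h4
      exact h4
  have h3 : (Fintype.piFinset (fun _ : s => (range A).powerset)).card = (2 ^ A) ^ s.card := by
    rw [Fintype.card_piFinset]
    simp
  rw [← h3]
  exact hcard.trans ((Multiset.toFinset_card_le _).trans (card_nthRoots _ _))

end Pool.Agent.W_420c7c_h24
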