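import Pool.Agent.W_420c7c_h24.B
import Pool.Agent.W_420c7c_h24.A2

/-! MP_420c7c_nt, density theorem: counting. -/

set_option autoImplicit false
open Polynomial Finset

namespace Pool.Agent.W_420c7c_h24

/-- A set of residue classes modulo the squares of the primes of `B`. -/
theorem crt_count (B : Finset ℕ) (hB : ∀ q ∈ B, q.Prime) (Y : ℕ) (hY : Y ≤ ∏ q ∈ B, q ^ 2)
    (R : ℕ → Finset ℕ) (w : ℕ → ℕ) (hR : ∀ q ∈ B, (R q).card ≤ w q) (E : Finset ℕ)
    (hE : ∀ n ∈ E, n < Y ∧ ∀ q ∈ B, n % q ^ 2 ∈ R q) : E.card ≤ ∏ q ∈ B, w q := by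
  classical
  have h1 : E.card ≤ (Fintype.piFinset (fun x : B => R x.1)).card := by
    refine card_le_card_of_injOn (fun n => fun x : B => n % x.1 ^ 2) ?_ ?_
    · intro n hn
      rw [mem_coe, Fintype.mem_piFinset]
      exact fun x => (hE n hn).2 x.1 x.2
    · intro n hn m hm hnm
      have h2 : ∀ q ∈ B, ((q ^ 2 : ℕ) : ℤ) ∣ (n : ℤ) - m := by
        intro q hq
        have h3 : n % q ^ 2 = m % q ^ 2 := congrFun hnm ⟨q, hq⟩
        exact (Nat.modEq_iff_dvd.1 (show m ≡ n [MOD q ^ 2] from h3.symm))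
      have h3 : (∏ q ∈ B, ((q ^ 2 : ℕ) : ℤ)) ∣ (n : ℤ) - m := by
        refine Finset.prod_dvd_of_coprime ?_ h2
        intro q hq r hr hqr
        refine Nat.isCoprime_iff_coprime.2 ?_
        exact Nat.Coprime.pow _ _ ((Nat.coprime_primes (hB q hq) (hB r hr)).2 hqr)
      have h4 : |(n : ℤ) - m| < ∏ q ∈ B, ((q ^ 2 : ℕ) : ℤ) := by
        have h5 : ((∏ q ∈ B, q ^ 2 : ℕ) : ℤ) = ∏ q ∈ B, ((q ^ 2 : ℕ) : ℤ) := by
          rw [Nat.cast_prod]
        rw [← h5]
        have h6 := (hE n hn).1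
        have h7 := (hE m hm).1
        rw [abs_lt]
        constructor <;> omega
      have h5 := Int.eq_zero_of_abs_lt_dvd h3 h4
      omega
  refine h1.trans ?_
  rw [Fintype.card_piFinset, ← prod_attach B w]
  exact prod_le_prod' fun x _ => hR x.1 x.2

/-- Sub-product of the right size. -/
theorem exists_sub_prod (U : Finset ℕ) (w : ℕ → ℕ) (M Y : ℕ) (hM : 1 ≤ M) (hY : 1 ≤ Y)
    (hw : ∀ q ∈ U, w q ≤ M) (h : Y ≤ ∏ q ∈ U, w q) :
    ∃ B, B ⊆ U ∧ Y ≤ ∏ q ∈ B, w q ∧ ∏ q ∈ B, w q ≤ Y * M := by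
  classical
  induction U using Finset.induction_on with
  | empty =>
    refine ⟨∅, Subset.refl _, h, ?_⟩
    rw [prod_empty]
    exact Nat.mul_pos hY hM
  | insert a U ha ih =>
    by_cases h1 : Y ≤ ∏ q ∈ U, w q
    · obtain ⟨B, hB, h2, h3⟩ := ih (fun q hq => hw q (mem_insert_of_mem hq)) h1
      exact ⟨B, hB.trans (subset_insert _ _), h2, h3⟩
    · refine ⟨insert a U, Subset.refl _, h, ?_⟩
      rw [prod_insert ha, mul_comm Y]
      exact Nat.mul_le_mul (hw a (mem_insert_self _ _)) (by omega)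

/-- The residue classes of order dividing `q - 1`. -/
def R1 (q : ℕ) : Finset ℕ := (range (q ^ 2)).filter fun a => a ^ (q - 1) ≡ 1 [MOD q ^ 2]

theorem R1_card {q : ℕ} (hq : q.Prime) : (R1 q).card ≤ q := by
  have h1 : (R1 q).card ≤ (range q).card := by
    refine card_le_card_of_injOn (fun a => a % q) ?_ ?_
    · intro a _
      rw [mem_coe, mem_range]
      exact Nat.mod_lt _ hq.pos
    · intro a ha b hb hab
      rw [mem_coe, R1, mem_filter, mem_range] at ha hb
      have h2 : ∀ c : ℕ, c ^ (q - 1) ≡ 1 [MOD q ^ 2] → c ^ q ≡ c [MOD q ^ 2] := by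
        intro c hc
        have e : c ^ q = c ^ (q - 1) * c := by
          rw [← pow_succ, Nat.sub_add_cancel hq.pos]
        rw [e]
        simpa using hc.mul_right c
      have h3 : ((q ^ 2 : ℕ) : ℤ) ∣ (a : ℤ) ^ q - (b : ℤ) ^ q := by
        have h4 : (q : ℤ) ∣ (a : ℤ) - b :=
          Nat.modEq_iff_dvd.1 (show b ≡ a [MOD q] from (show a % q = b % q from hab).symm)
        have h5 := dvd_sub_pow_of_dvd_sub h4 1
        simpa using h5
      have h4 : a ^ q ≡ b ^ q [MOD q ^ 2] := by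
        refine (Nat.modEq_iff_dvd.2 ?_).symm
        push_cast
        push_cast at h3
        exact h3
      have h5 : a ≡ b [MOD q ^ 2] := (h2 a ha.2).symm.trans (h4.trans (h2 b hb.2))
      exact Nat.ModEq.eq_of_lt_of_lt h5 ha.1 hb.1
  simpa using h1

/-- Residue classes of the exceptional integers. -/
def R2 (q : ℕ) : Finset ℕ := R1 q ∪ {0, q}

theorem R2_card {q : ℕ} (hq : q.Prime) : (R2 q).card ≤ q + 2 :=
  (card_union_le _ _).trans (add_le_add (R1_card hq) card_le_two)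

theorem mem_R1 {n q : ℕ} (hq : q.Prime) (h : n ^ (q - 1) ≡ 1 [MOD q ^ 2]) : n % q ^ 2 ∈ R1 q := by
  rw [R1, mem_filter, mem_range]
  refine ⟨Nat.mod_lt _ (pow_pos hq.pos 2), ?_⟩
  exact ((Nat.mod_modEq n (q ^ 2)).pow _).trans h

theorem mem_R2 {n q : ℕ} (hq : q.Prime) (hq3 : 3 ≤ q) (hc : Cong n (q ^ 2)) (h : ¬ IsGood n q) :
    n % q ^ 2 ∈ R2 q := by
  rw [R2, mem_union]
  by_cases h1 : q ∣ n
  · right
    rw [mem_insert, mem_singleton]
    exact dvd_class hq hq3 h1 hc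
  · left
    refine mem_R1 hq ?_
    by_contra h2
    exact h ⟨h1, h2⟩

/-- The primes used. -/
def Ls (N : ℕ) : Finset ℕ := (range (N + 1)).filter fun q => q.Prime ∧ N < 16 * q

open Classical in
/-- The good primes of `n`. -/
noncomputable def Gd (N n : ℕ) : Finset ℕ := (Ls N).filter (IsGood n)

theorem Ls_prime {N q : ℕ} (h : q ∈ Ls N) : q.Prime := (mem_filter.1 h).2.1
theorem Ls_le {N q : ℕ} (h : q ∈ Ls N) : q ≤ N := by
  have := mem_range.1 (mem_filter.1 h).1
  omega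
theorem Ls_lt {N q : ℕ} (h : q ∈ Ls N) : N < 16 * q := (mem_filter.1 h).2.2

theorem Ls_card (N : ℕ) : (Ls N).card ≤ N + 1 := by
  exact (card_filter_le _ _).trans (card_range _).le

/-- The exceptional integers with a given set of good primes. -/
theorem exc_one {N : ℕ} (hN : 1 ≤ N) (s : Finset ℕ)
    (hs : 2 ^ (N + 1) ≤ ∏ q ∈ Ls N \ s, q ^ 2) (R : ℕ → Finset ℕ)
    (hR : ∀ q ∈ Ls N, (R q).card ≤ q + 2) (E : Finset ℕ)
    (hE : ∀ n ∈ E, n < 2 ^ (N + 1) ∧ ∀ q ∈ Ls N \ s, n % q ^ 2 ∈ R q) :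
    (E.card : ℝ) ≤ Real.exp 64 * (√(2 ^ (N + 1)) * N) := by
  obtain ⟨B, hB, h1, h2⟩ := exists_sub_prod (Ls N \ s) (fun q => q ^ 2) (N ^ 2) (2 ^ (N + 1))
    (Nat.one_le_pow _ _ hN) (Nat.one_le_two_pow)
    (fun q hq => Nat.pow_le_pow_left (Ls_le (mem_sdiff.1 hq).1) 2) hs
  have hBL : ∀ q ∈ B, q ∈ Ls N := fun q hq => (mem_sdiff.1 (hB hq)).1
  have h3 := crt_count B (fun q hq => Ls_prime (hBL q hq)) (2 ^ (N + 1)) h1 R (fun q => q + 2)
    (fun q hq => hR q (hBL q hq)) E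
    (fun n hn => ⟨(hE n hn).1, fun q hq => (hE n hn).2 q (hB hq)⟩)
  have h3' : (E.card : ℝ) ≤ ∏ q ∈ B, ((q : ℝ) + 2) := by exact_mod_cast h3
  have hN0 : (1 : ℝ) ≤ N := by exact_mod_cast hN
  have h4 : ∏ q ∈ B, ((q : ℝ) + 2) ≤ ∏ q ∈ B, (q * Real.exp (32 / N)) := by
    refine prod_le_prod (fun q _ => by positivity) fun q hq => ?_
    have hq0 : (0 : ℝ) < q := by exact_mod_cast (Ls_prime (hBL q hq)).pos
    have hq1 : (N : ℝ) < 16 * q := by exact_mod_cast Ls_lt (hBL q hq)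
    have h5 : 2 / (q : ℝ) ≤ 32 / N := by
      rw [div_le_div_iff₀ hq0 (by linarith)]
      linarith
    have h6 := Real.add_one_le_exp (32 / (N : ℝ))
    have h7 : (q : ℝ) + 2 = q * (1 + 2 / q) := by
      field_simp
    rw [h7]
    exact mul_le_mul_of_nonneg_left (by linarith) hq0.le
  have h5 : ∏ q ∈ B, ((q : ℝ) * Real.exp (32 / N)) ≤ (∏ q ∈ B, (q : ℝ)) * Real.exp 64 := by
    rw [prod_mul_distrib, prod_const, ← Real.exp_nat_mul]
    refine mul_le_mul_of_nonneg_left (Real.exp_le_exp.2 ?_) (prod_nonneg fun q _ => by positivity)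
    have h6 : (B.card : ℝ) ≤ N + 1 := by
      exact_mod_cast (card_le_card fun q hq => hBL q hq).trans (Ls_card N)
    rw [← mul_div_assoc, div_le_iff₀ (by linarith)]
    nlinarith
  have h6 : (∏ q ∈ B, (q : ℝ)) ≤ √(2 ^ (N + 1)) * N := by
    have h7 : (∏ q ∈ B, (q : ℝ)) ^ 2 ≤ (√(2 ^ (N + 1)) * N) ^ 2 := by
      rw [mul_pow, Real.sq_sqrt (by positivity), ← prod_pow]
      exact_mod_cast h2
    exact abs_le_of_sq_le_sq' h7 (by positivity) |>.2
  calc (E.card : ℝ) ≤ (∏ q ∈ B, (q : ℝ)) * Real.exp 64 := h3'.trans (h4.trans h5)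
    _ ≤ (√(2 ^ (N + 1)) * N) * Real.exp 64 := mul_le_mul_of_nonneg_right h6 (Real.exp_pos _).le
    _ = _ := mul_comm _ _

/-- The number of small subsets. -/
theorem small_subsets (N K : ℕ) :
    ((Ls N).powerset.filter fun s => s.card < K).card ≤ K * (N + 2) ^ K := by
  classical
  have h1 : (Ls N).powerset.filter (fun s => s.card < K) ⊆
      (range K).biUnion fun i => powersetCard i (Ls N) := by
    intro s hs
    rw [mem_filter, mem_powerset] at hs
    rw [mem_biUnion]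
    exact ⟨s.card, mem_range.2 hs.2, mem_powersetCard.2 ⟨hs.1, rfl⟩⟩
  refine (card_le_card h1).trans (card_biUnion_le.trans ?_)
  have h2 : ∀ i ∈ range K, (powersetCard i (Ls N)).card ≤ (N + 2) ^ K := by
    intro i hi
    rw [card_powersetCard]
    refine (Nat.choose_le_pow _ _).trans ?_
    calc (Ls N).card ^ i ≤ (N + 2) ^ i := Nat.pow_le_pow_left ((Ls_card N).trans (by omega)) i
      _ ≤ (N + 2) ^ K := Nat.pow_le_pow_right (by omega) (mem_range.1 hi).le
  refine (sum_le_sum h2).trans ?_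
  rw [sum_const, card_range, smul_eq_mul]

/-- The exceptional integers. -/
theorem exc_count {N : ℕ} (hN : 1 ≤ N) (K : ℕ)
    (hs : ∀ s : Finset ℕ, s.card < K → 2 ^ (N + 1) ≤ ∏ q ∈ Ls N \ s, q ^ 2)
    (R : ℕ → Finset ℕ) (hR : ∀ q ∈ Ls N, (R q).card ≤ q + 2) (E : Finset ℕ)
    (hE : ∀ n ∈ E, n < 2 ^ (N + 1) ∧ (Gd N n).card < K ∧ ∀ q ∈ Ls N \ Gd N n, n % q ^ 2 ∈ R q) :
    (E.card : ℝ) ≤ (K * (N + 2) ^ K : ℕ) * (Real.exp 64 * (√(2 ^ (N + 1)) * N)) := by
  classical
  have h1 : E ⊆ ((Ls N).powerset.filter fun s => s.card < K).biUnion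
      fun s => E.filter fun n => Gd N n = s := by
    intro n hn
    rw [mem_biUnion]
    refine ⟨Gd N n, ?_, mem_filter.2 ⟨hn, rfl⟩⟩
    rw [mem_filter, mem_powerset]
    exact ⟨filter_subset _ _, (hE n hn).2.1⟩
  have h2 : ∀ s ∈ (Ls N).powerset.filter fun s => s.card < K,
      ((E.filter fun n => Gd N n = s).card : ℝ) ≤ Real.exp 64 * (√(2 ^ (N + 1)) * N) := by
    intro s hs'
    rw [mem_filter] at hs'
    refine exc_one hN s (hs s hs'.2) R hR (E.filter fun n => Gd N n = s) ?_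
    intro n hn
    rw [mem_filter] at hn
    refine ⟨(hE n hn.1).1, ?_⟩
    rw [← hn.2]
    exact (hE n hn.1).2.2
  have h3 : (E.card : ℝ) ≤ ∑ s ∈ (Ls N).powerset.filter fun s => s.card < K,
      ((E.filter fun n => Gd N n = s).card : ℝ) := by
    exact_mod_cast (card_le_card h1).trans card_biUnion_le
  refine h3.trans ((sum_le_sum h2).trans ?_)
  rw [sum_const, nsmul_eq_mul]
  refine mul_le_mul_of_nonneg_right ?_ (by positivity)
  exact_mod_cast small_subsets N K

/-- The other integers. -/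
theorem main_count {N K A : ℕ} (hA : 16 * (A * A) ≤ N) (hKA : N + 1 ≤ A * K) (E : Finset ℕ)
    (hE : ∀ n ∈ E, 2 ^ N ≤ n ∧ n < 2 ^ (N + 1) ∧ ¬ n.Prime ∧ (∀ q ∈ Ls N, Cong n (q ^ 2)) ∧
      K ≤ (Gd N n).card) :
    E.card ≤ (Nat.sqrt (2 ^ (N + 1)) + 1) * (N + 2) ^ K * (N ^ 2) ^ K := by
  classical
  have hsel : ∀ n : ℕ, ∃ s : Finset ℕ, n ∈ E → s ⊆ Gd N n ∧ s.card = K := by
    intro n
    by_cases hn : n ∈ E
    · obtain ⟨s, hs1, hs2⟩ := exists_subset_card_eq (hE n hn).2.2.2.2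
      exact ⟨s, fun _ => ⟨hs1, hs2⟩⟩
    · exact ⟨∅, fun h => absurd h hn⟩
  choose s hs using hsel
  have hsL : ∀ n ∈ E, ∀ q ∈ s n, q ∈ Ls N := fun n hn q hq =>
    (mem_filter.1 ((hs n hn).1 hq)).1
  have h1 : E.card ≤ ((range (Nat.sqrt (2 ^ (N + 1)) + 1)) ×ˢ
      (powersetCard K (Ls N) ×ˢ range ((N ^ 2) ^ K))).card := by
    refine card_le_card_of_injOn
      (fun n => (n.minFac, (s n, n % ∏ q ∈ s n, q ^ 2))) ?_ ?_
    · intro n hn
      obtain ⟨h2, h3, h4, h5, h6⟩ := hE n hn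
      rw [mem_coe, mem_product, mem_product]
      refine ⟨?_, ?_, ?_⟩
      · rw [mem_range, Nat.lt_succ_iff, Nat.le_sqrt']
        have h7 := Nat.minFac_sq_le_self (lt_of_lt_of_le (by positivity) h2) h4
        exact h7.trans h3.le
      · rw [mem_powersetCard]
        exact ⟨fun q hq => hsL n hn q hq, (hs n hn).2⟩
      · rw [mem_range]
        have h7 : 0 < ∏ q ∈ s n, q ^ 2 :=
          prod_pos fun q hq => pow_pos (Ls_prime (hsL n hn q hq)).pos 2
        refine lt_of_lt_of_le (Nat.mod_lt _ h7) ?_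
        rw [← (hs n hn).2, ← prod_const]
        exact prod_le_prod' fun q hq => Nat.pow_le_pow_left (Ls_le (hsL n hn q hq)) 2
    · have key : ∀ n m : ℕ, n ∈ E → m ∈ E → n < m → n.minFac = m.minFac → s n = s m →
          n % ∏ q ∈ s n, q ^ 2 = m % ∏ q ∈ s m, q ^ 2 → False := by
        intro n m hn hm hlt hmin hss hmod
        obtain ⟨h2, h3, h4, h5, h6⟩ := hE n hn
        obtain ⟨k2, k3, k4, k5, k6⟩ := hE m hm
        have hn1 : n ≠ 1 := by
          intro h
          rw [h] at h2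
          have : 2 ^ N ≤ 1 := h2
          have hN0 : N = 0 := by
            by_contra h7
            have h8 : 2 ≤ 2 ^ N := by
              calc 2 = 2 ^ 1 := rfl
                _ ≤ 2 ^ N := Nat.pow_le_pow_right (by norm_num) (by omega)
            omega
          rw [hN0] at hA hKA
          have : A = 0 := by nlinarith
          rw [this] at hKA
          omega
        rw [← hss] at hmod
        have hu := uniq (A := A) (Nat.minFac_prime hn1) (Nat.minFac_dvd n)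
          (hmin ▸ Nat.minFac_dvd m) hlt (s n)
          (fun q hq => Ls_prime (hsL n hn q hq))
          (fun q hq => (mem_filter.1 ((hs n hn).1 hq)).2)
          (fun q hq => by
            have h7 := Ls_lt (hsL n hn q hq)
            omega)
          (fun q hq => by
            have h7 : q ^ 2 ∣ ∏ q ∈ s n, q ^ 2 := dvd_prod_of_mem (fun q => q ^ 2) hq
            exact Nat.ModEq.of_dvd h7 hmod)
          (fun q hq => h5 q (hsL n hn q hq)) (fun q hq => k5 q (hsL n hn q hq))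
        rw [(hs n hn).2, ← pow_mul] at hu
        have h7 : 2 ^ (N + 1) ≤ 2 ^ (A * K) := Nat.pow_le_pow_right (by norm_num) hKA
        have h8 : 0 < 2 ^ N := by positivity
        omega
      intro n hn m hm hnm
      simp only [Prod.mk.injEq] at hnm
      rcases lt_trichotomy n m with h | h | h
      · exact absurd (key n m hn hm h hnm.1 hnm.2.1 hnm.2.2) id
      · exact h
      · exact absurd (key m n hm hn h hnm.1.symm hnm.2.1.symm hnm.2.2.symm) id
  refine h1.trans ?_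
  rw [card_product, card_product, card_range, card_range, card_powersetCard, ← mul_assoc]
  refine Nat.mul_le_mul (Nat.mul_le_mul le_rfl ?_) le_rfl
  refine (Nat.choose_le_pow _ _).trans (Nat.pow_le_pow_left ((Ls_card N).trans (by omega)) K)

end Pool.Agent.W_420c7c_h24
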