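import Pool.Agent.W_420c7c_h24.C

/-! MP_420c7c_nt, density theorem: estimates. -/

set_option autoImplicit false
open Polynomial Finset Filter Topology

namespace Pool.Agent.W_420c7c_h24

/-- the number of variables per prime -/
def An (N : ℕ) : ℕ := Nat.sqrt (N / 16)

/-- the number of good primes used -/
def Kn (N : ℕ) : ℕ := (N + 1) / An N + 1

theorem An_sq (N : ℕ) : 16 * (An N * An N) ≤ N := by
  have h1 := Nat.sqrt_le (N / 16)
  have h2 := Nat.div_mul_le_self N 16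
  unfold An
  omega

theorem An_Kn (N : ℕ) (hN : 16 ≤ N) : N + 1 ≤ An N * Kn N := by
  have h1 : 0 < An N := Nat.sqrt_pos.2 (Nat.div_pos hN (by norm_num))
  unfold Kn
  have h2 := Nat.lt_mul_div_succ (N + 1) h1
  exact h2.le

theorem An_ge (N : ℕ) (hN : 256 ≤ N) : √(N : ℝ) ≤ 8 * An N := by
  have h1 : N < 16 * ((An N + 1) * (An N + 1)) := by
    have h2 := Nat.lt_succ_sqrt (N / 16)
    unfold An
    have h3 : N < 16 * (N / 16 + 1) := by omega
    have h4 : N / 16 + 1 ≤ (Nat.sqrt (N / 16) + 1) * (Nat.sqrt (N / 16) + 1) := h2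
    calc N < 16 * (N / 16 + 1) := h3
      _ ≤ _ := Nat.mul_le_mul le_rfl h4
  have h5 : 1 ≤ An N := Nat.sqrt_pos.2 (Nat.div_pos (by omega) (by norm_num))
  have h6 : (N : ℝ) ≤ (8 * An N) ^ 2 := by
    have h7 : (N : ℝ) < 16 * (((An N : ℝ) + 1) * ((An N : ℝ) + 1)) := by exact_mod_cast h1
    have h8 : (1 : ℝ) ≤ An N := by exact_mod_cast h5
    nlinarith
  exact Real.sqrt_le_iff.2 ⟨by positivity, h6⟩

theorem Kn_le (N : ℕ) (hN : 256 ≤ N) : (Kn N : ℝ) ≤ 17 * √(N : ℝ) := by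
  have h1 := An_ge N hN
  have hN' : (256 : ℝ) ≤ N := by exact_mod_cast hN
  have hs : (16 : ℝ) ≤ √(N : ℝ) := by
    rw [show (16 : ℝ) = √(16 ^ 2) by rw [Real.sqrt_sq (by norm_num)]]
    exact Real.sqrt_le_sqrt (by linarith)
  have hA0 : (0 : ℝ) < An N := by linarith
  have h2 : (Kn N : ℝ) ≤ (N + 1) / An N + 1 := by
    unfold Kn
    push_cast
    have h3 : (((N + 1) / An N : ℕ) : ℝ) ≤ ((N + 1 : ℕ) : ℝ) / An N := Nat.cast_div_le
    push_cast at h3
    linarith
  refine h2.trans ?_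
  have h3 : ((N : ℝ) + 1) / An N ≤ 8 * (N + 1) / √(N : ℝ) := by
    rw [div_le_div_iff₀ hA0 (by linarith)]
    nlinarith
  have h4 : 8 * ((N : ℝ) + 1) / √(N : ℝ) ≤ 16 * √(N : ℝ) := by
    rw [div_le_iff₀ (by linarith)]
    have h5 : √(N : ℝ) * √(N : ℝ) = N := Real.mul_self_sqrt (by linarith)
    nlinarith
  linarith

/-- Chebyshev -/
theorem cheb : ∀ᶠ N : ℕ in atTop, ∀ s : Finset ℕ, s.card < Kn N →
    2 ^ (N + 1) ≤ ∏ q ∈ Ls N \ s, q ^ 2 := by
  have hlim : ∀ᶠ N : ℕ in atTop, √(N : ℝ) * Real.log N ≤ 1 / 200 * (N : ℝ) := by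
    have h1 : Tendsto (fun x : ℝ => Real.log x / x ^ ((1 : ℝ) / 2)) atTop (𝓝 0) :=
      (isLittleO_log_rpow_atTop (by norm_num)).tendsto_div_nhds_zero
    have h2 := (h1.comp tendsto_natCast_atTop_atTop).eventually
      (Iio_mem_nhds (show (0 : ℝ) < 1 / 200 by norm_num))
    filter_upwards [h2, eventually_ge_atTop 1] with N h3 h4
    have h5 : (1 : ℝ) ≤ N := by exact_mod_cast h4
    rw [Function.comp, ← Real.sqrt_eq_rpow, div_lt_iff₀ (by positivity)] at h3
    have h6 : √(N : ℝ) * √(N : ℝ) = N := Real.mul_self_sqrt (by linarith)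
    nlinarith [Real.sqrt_nonneg (N : ℝ)]
  filter_upwards [hlim, eventually_ge_atTop 10000] with N h1 hN s hs
  have hN' : (10000 : ℝ) ≤ N := by exact_mod_cast hN
  have hs100 : (100 : ℝ) ≤ √(N : ℝ) := by
    rw [show (100 : ℝ) = √(100 ^ 2) by rw [Real.sqrt_sq (by norm_num)]]
    exact Real.sqrt_le_sqrt (by linarith)
  have hlog1 : (1 : ℝ) ≤ Real.log N := by
    rw [Real.le_log_iff_exp_le (by linarith)]
    exact (Real.exp_one_lt_d9.le).trans (by linarith)
  have hK := Kn_le N (by omega)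
  -- sum over Ls
  have hsum : ∑ q ∈ Ls N, Real.log q = Chebyshev.theta N - Chebyshev.theta ((N / 16 : ℕ) : ℝ) := by
    rw [eq_sub_iff_add_eq, Chebyshev.theta, Chebyshev.theta, Nat.floor_natCast, Nat.floor_natCast]
    rw [← sum_union]
    · refine sum_congr ?_ fun _ _ => rfl
      ext q
      simp only [mem_union, Ls, mem_filter, mem_range, mem_Ioc]
      constructor
      · rintro (⟨h2, h3, h4⟩ | ⟨⟨h2, h3⟩, h4⟩)
        · exact ⟨⟨h3.pos, by omega⟩, h3⟩
        · exact ⟨⟨h2, by omega⟩, h4⟩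
      · rintro ⟨⟨h2, h3⟩, h4⟩
        by_cases h5 : N < 16 * q
        · exact Or.inl ⟨by omega, h4, h5⟩
        · exact Or.inr ⟨⟨h2, by omega⟩, h4⟩
    · rw [disjoint_left]
      intro q h2 h3
      simp only [Ls, mem_filter, mem_range, mem_Ioc] at h2 h3
      omega
  have h2 := Chebyshev.theta_ge N
  have h3 : Chebyshev.theta ((N / 16 : ℕ) : ℝ) ≤ Real.log 4 * (N / 16 : ℝ) := by
    refine (Chebyshev.theta_le_log4_mul_x (by positivity)).trans ?_
    refine mul_le_mul_of_nonneg_left ?_ (Real.log_nonneg (by norm_num))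
    have h4 : (((N / 16 : ℕ)) : ℝ) ≤ (N : ℝ) / (16 : ℕ) := Nat.cast_div_le
    simpa using h4
  have h4 : Real.log 4 = 2 * Real.log 2 := by
    rw [show (4 : ℝ) = 2 ^ 2 by norm_num, Real.log_pow]
    norm_num
  have hsub : ∑ q ∈ Ls N \ s, Real.log q ≥ ∑ q ∈ Ls N, Real.log q - Kn N * Real.log N := by
    have h5 : ∑ q ∈ Ls N, Real.log q =
        ∑ q ∈ Ls N \ s, Real.log q + ∑ q ∈ Ls N ∩ s, Real.log q := by
      rw [← sum_union (disjoint_sdiff_inter _ _), sdiff_union_inter]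
    have h6 : ∑ q ∈ Ls N ∩ s, Real.log q ≤ Kn N * Real.log N := by
      calc ∑ q ∈ Ls N ∩ s, Real.log q ≤ ∑ q ∈ Ls N ∩ s, Real.log N := by
            refine sum_le_sum fun q hq => ?_
            have h7 := (mem_inter.1 hq).1
            exact Real.log_le_log (by exact_mod_cast (Ls_prime h7).pos)
              (by exact_mod_cast Ls_le h7)
        _ = (Ls N ∩ s).card * Real.log N := by rw [sum_const, nsmul_eq_mul]
        _ ≤ Kn N * Real.log N := by
          refine mul_le_mul_of_nonneg_right ?_ (by linarith)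
          have h7 : (Ls N ∩ s).card ≤ Kn N := (card_le_card inter_subset_right).trans hs.le
          exact_mod_cast h7
    linarith
  have hlog2 : (0.69 : ℝ) < Real.log 2 := by
    have := Real.log_two_gt_d9
    linarith
  have hlogN1 : Real.log (N + 1) ≤ 2 * Real.log N := by
    have h5 : Real.log ((N : ℝ) + 1) ≤ Real.log ((N : ℝ) ^ 2) :=
      Real.log_le_log (by linarith) (by nlinarith)
    rw [Real.log_pow] at h5
    simpa using h5
  have hcmp : ((N : ℝ) + 1) * Real.log 2 ≤ 2 * ∑ q ∈ Ls N \ s, Real.log q := by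
    have h5 : (Kn N : ℝ) * Real.log N ≤ 17 * (√(N : ℝ) * Real.log N) := by
      calc (Kn N : ℝ) * Real.log N ≤ 17 * √(N : ℝ) * Real.log N :=
            mul_le_mul_of_nonneg_right hK (by linarith)
        _ = _ := by ring
    have h6 : Real.log N ≤ √(N : ℝ) * Real.log N := by nlinarith
    nlinarith
  have hprod : Real.log (∏ q ∈ Ls N \ s, ((q : ℝ) ^ 2)) = 2 * ∑ q ∈ Ls N \ s, Real.log q := by
    rw [Real.log_prod, mul_sum]
    · refine sum_congr rfl fun q _ => ?_
      rw [Real.log_pow]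
      norm_num
    · intro q hq
      have := (Ls_prime (mem_sdiff.1 hq).1).pos
      positivity
  have hfin : Real.log ((2 : ℝ) ^ (N + 1)) ≤ Real.log (∏ q ∈ Ls N \ s, ((q : ℝ) ^ 2)) := by
    rw [hprod, Real.log_pow]
    push_cast
    exact hcmp
  have hpos : (0 : ℝ) < ∏ q ∈ Ls N \ s, ((q : ℝ) ^ 2) := by
    refine prod_pos fun q hq => ?_
    have := (Ls_prime (mem_sdiff.1 hq).1).pos
    positivity
  have h5 := (Real.log_le_log_iff (by positivity) hpos).1 hfin
  exact_mod_cast h5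

end Pool.Agent.W_420c7c_h24
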