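import Pool.Agent.W_420c7c_h24.D

/-! MP_420c7c_nt, density theorem: bounds for dyadic blocks. -/

set_option autoImplicit false
open Polynomial Finset Filter Topology

namespace Pool.Agent.W_420c7c_h24

theorem cong_of_prime {p : ℕ} (hp : p.Prime) (r : ℕ) : Cong p r := by
  have hf : Fact p.Prime := ⟨hp⟩
  unfold Cong
  rw [add_pow_char (R := (ZMod p)[X]) (p := p) 1 X, one_pow, sub_self]
  exact dvd_zero _

/-- condition (C) -/
def CC (n : ℕ) : Prop := ∀ r : ℕ, 1 ≤ r → (r : ℝ) ≤ (Real.logb 2 (n : ℝ)) ^ 2 → Cong n r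

/-- the congruences for the squares of primes -/
def CS (n : ℕ) : Prop := ∀ q : ℕ, q.Prime → (q : ℝ) ≤ Real.logb 2 (n : ℝ) → Cong n (q ^ 2)

theorem le_logb {n N : ℕ} (h : 2 ^ N ≤ n) : (N : ℝ) ≤ Real.logb 2 (n : ℝ) := by
  have hn : 0 < n := lt_of_lt_of_le (by positivity) h
  rw [Real.le_logb_iff_rpow_le (by norm_num) (by exact_mod_cast hn), Real.rpow_natCast]
  exact_mod_cast h

theorem CC_CS {n : ℕ} (h : CC n) : CS n := by
  intro q hq hle
  refine h (q ^ 2) (Nat.one_le_pow _ _ hq.pos) ?_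
  push_cast
  have h0 : (0 : ℝ) ≤ q := Nat.cast_nonneg q
  exact pow_le_pow_left₀ h0 hle 2

theorem CS_Ls {n N : ℕ} (hn : 2 ^ N ≤ n) (h : CS n) : ∀ q ∈ Ls N, Cong n (q ^ 2) := by
  intro q hq
  refine h q (Ls_prime hq) ?_
  have h1 : (q : ℝ) ≤ N := by exact_mod_cast Ls_le hq
  exact h1.trans (le_logb hn)

open Classical in
/-- composite integers of a dyadic block with the congruences for the squares of primes -/
noncomputable def BS (N : ℕ) : Finset ℕ :=
  (Ico (2 ^ N) (2 ^ (N + 1))).filter fun n => ¬ n.Prime ∧ CS n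

/-- auxiliary: the powers which occur -/
theorem aux_exp : ∀ᶠ N : ℕ in atTop, ((Kn N : ℝ) * ((N : ℝ) + 2) ^ Kn N) *
      (Real.exp 64 * (√(2 ^ (N + 1)) * N)) +
    (√(2 ^ (N + 1)) + 1) * ((N : ℝ) + 2) ^ Kn N * ((N : ℝ) ^ 2) ^ Kn N ≤
      √(2 ^ (N + 1)) * Real.exp (100 * (√(N : ℝ) * Real.log N)) := by
  filter_upwards [eventually_ge_atTop 10000] with N hN
  have hN' : (10000 : ℝ) ≤ N := by exact_mod_cast hN
  have hs100 : (100 : ℝ) ≤ √(N : ℝ) := by
    rw [show (100 : ℝ) = √(100 ^ 2) by rw [Real.sqrt_sq (by norm_num)]]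
    exact Real.sqrt_le_sqrt (by linarith)
  have hlog1 : (1 : ℝ) ≤ Real.log N := by
    rw [Real.le_log_iff_exp_le (by linarith)]
    exact (Real.exp_one_lt_d9.le).trans (by linarith)
  have hK := Kn_le N (by omega)
  set W : ℝ := √(N : ℝ) * Real.log N with hW
  have hW100 : 100 ≤ W := by nlinarith
  have hNexp : (N : ℝ) ≤ Real.exp W := by
    have h1 : (N : ℝ) = Real.exp (Real.log N) := (Real.exp_log (by linarith)).symm
    have h2 : Real.log N ≤ W := by
      rw [hW]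
      nlinarith
    calc (N : ℝ) = Real.exp (Real.log N) := h1
      _ ≤ Real.exp W := Real.exp_le_exp.2 h2
  have hKexp : (Kn N : ℝ) ≤ Real.exp W := by
    refine hK.trans (le_trans ?_ hNexp)
    have h5 : √(N : ℝ) * √(N : ℝ) = N := Real.mul_self_sqrt (by linarith)
    nlinarith
  have hpow : ∀ z : ℝ, 1 ≤ z → z ≤ (N : ℝ) ^ 2 → z ^ Kn N ≤ Real.exp (34 * W) := by
    intro z hz1 hz2
    have h1 : z ^ Kn N = Real.exp (Kn N * Real.log z) := by
      rw [mul_comm, Real.exp_mul, Real.exp_log (by linarith), Real.rpow_natCast]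
    rw [h1]
    refine Real.exp_le_exp.2 ?_
    have h2 : Real.log z ≤ 2 * Real.log N := by
      have h3 := Real.log_le_log (by linarith) hz2
      rw [Real.log_pow] at h3
      simpa using h3
    have h3 : 0 ≤ Real.log z := Real.log_nonneg hz1
    calc (Kn N : ℝ) * Real.log z ≤ (17 * √(N : ℝ)) * (2 * Real.log N) :=
          mul_le_mul hK h2 h3 (by positivity)
      _ = 34 * W := by rw [hW]; ring
  have hp1 := hpow ((N : ℝ) + 2) (by linarith) (by nlinarith)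
  have hp2 := hpow ((N : ℝ) ^ 2) (by nlinarith) le_rfl
  have hsq : (1 : ℝ) ≤ √(2 ^ (N + 1)) := by
    rw [Real.one_le_sqrt]
    exact one_le_pow₀ (by norm_num)
  have e1 : (Kn N : ℝ) * ((N : ℝ) + 2) ^ Kn N * (Real.exp 64 * (√(2 ^ (N + 1)) * N)) ≤
      √(2 ^ (N + 1)) * Real.exp (37 * W) := by
    have h64 : Real.exp 64 ≤ Real.exp W := Real.exp_le_exp.2 (by linarith)
    calc (Kn N : ℝ) * ((N : ℝ) + 2) ^ Kn N * (Real.exp 64 * (√(2 ^ (N + 1)) * N))
        ≤ Real.exp W * Real.exp (34 * W) * (Real.exp W * (√(2 ^ (N + 1)) * Real.exp W)) := by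
          gcongr
      _ = √(2 ^ (N + 1)) * Real.exp (37 * W) := by
          rw [show 37 * W = W + 34 * W + W + W by ring, Real.exp_add, Real.exp_add, Real.exp_add]
          ring
  have e2 : (√(2 ^ (N + 1)) + 1) * ((N : ℝ) + 2) ^ Kn N * ((N : ℝ) ^ 2) ^ Kn N ≤
      √(2 ^ (N + 1)) * (2 * Real.exp (68 * W)) := by
    calc (√(2 ^ (N + 1)) + 1) * ((N : ℝ) + 2) ^ Kn N * ((N : ℝ) ^ 2) ^ Kn N
        ≤ (√(2 ^ (N + 1)) + √(2 ^ (N + 1))) * Real.exp (34 * W) * Real.exp (34 * W) := by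
          gcongr
      _ = √(2 ^ (N + 1)) * (2 * Real.exp (68 * W)) := by
          rw [show 68 * W = 34 * W + 34 * W by ring, Real.exp_add]
          ring
  have e3 : Real.exp (37 * W) + 2 * Real.exp (68 * W) ≤ Real.exp (100 * W) := by
    have h1 : Real.exp (37 * W) ≤ Real.exp (68 * W) := Real.exp_le_exp.2 (by linarith)
    have h2 : Real.exp (100 * W) = Real.exp (68 * W) * Real.exp (32 * W) := by
      rw [← Real.exp_add]
      congr 1
      ring
    have h3 : (3 : ℝ) ≤ Real.exp (32 * W) := by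
      have := Real.add_one_le_exp (32 * W)
      linarith
    rw [h2]
    have h4 := Real.exp_pos (68 * W)
    nlinarith
  calc _ ≤ √(2 ^ (N + 1)) * Real.exp (37 * W) + √(2 ^ (N + 1)) * (2 * Real.exp (68 * W)) :=
        add_le_add e1 e2
    _ = √(2 ^ (N + 1)) * (Real.exp (37 * W) + 2 * Real.exp (68 * W)) := by ring
    _ ≤ _ := mul_le_mul_of_nonneg_left e3 (by positivity)

theorem sqrt_nat_le (m : ℕ) : ((Nat.sqrt m : ℕ) : ℝ) ≤ √(m : ℝ) := by
  refine Real.le_sqrt_of_sq_le ?_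
  exact_mod_cast Nat.sqrt_le' m

/-- Blocks, squares of primes. -/
theorem block_S : ∀ᶠ N : ℕ in atTop,
    ((BS N).card : ℝ) ≤ √(2 ^ (N + 1)) * Real.exp (100 * (√(N : ℝ) * Real.log N)) := by
  classical
  filter_upwards [aux_exp, cheb, eventually_ge_atTop 10000] with N h1 h2 hN
  refine le_trans ?_ h1
  set E1 := (BS N).filter fun n => (Gd N n).card < Kn N with hE1
  set E2 := (BS N).filter fun n => ¬ (Gd N n).card < Kn N with hE2
  have hsplit : ((BS N).card : ℝ) = E1.card + E2.card := by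
    rw [hE1, hE2]
    exact_mod_cast (card_filter_add_card_filter_not (s := BS N)
      (fun n => (Gd N n).card < Kn N)).symm
  have hmem : ∀ n ∈ BS N, 2 ^ N ≤ n ∧ n < 2 ^ (N + 1) ∧ ¬ n.Prime ∧ CS n := by
    intro n hn
    rw [BS, mem_filter, mem_Ico] at hn
    exact ⟨hn.1.1, hn.1.2, hn.2.1, hn.2.2⟩
  have hc1 : (E1.card : ℝ) ≤ (Kn N * (N + 2) ^ Kn N : ℕ) *
      (Real.exp 64 * (√(2 ^ (N + 1)) * N)) := by
    refine exc_count (by omega) (Kn N) h2 R2 (fun q hq => R2_card (Ls_prime hq)) E1 ?_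
    intro n hn
    rw [hE1, mem_filter] at hn
    obtain ⟨h3, h4, h5, h6⟩ := hmem n hn.1
    refine ⟨h4, hn.2, fun q hq => ?_⟩
    rw [Finset.mem_sdiff] at hq
    have h7 := Ls_lt hq.1
    refine mem_R2 (Ls_prime hq.1) (by omega) (CS_Ls h3 h6 q hq.1) ?_
    intro h8
    exact hq.2 (mem_filter.2 ⟨hq.1, h8⟩)
  have hc2 : (E2.card : ℝ) ≤
      (√(2 ^ (N + 1)) + 1) * ((N : ℝ) + 2) ^ Kn N * ((N : ℝ) ^ 2) ^ Kn N := by
    have h3 := main_count (An_sq N) (An_Kn N (by omega)) E2 (by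
      intro n hn
      rw [hE2, mem_filter] at hn
      obtain ⟨h3, h4, h5, h6⟩ := hmem n hn.1
      exact ⟨h3, h4, h5, CS_Ls h3 h6, not_lt.1 hn.2⟩)
    have h4 : (E2.card : ℝ) ≤
        (((Nat.sqrt (2 ^ (N + 1)) : ℕ) : ℝ) + 1) * ((N : ℝ) + 2) ^ Kn N *
          ((N : ℝ) ^ 2) ^ Kn N := by exact_mod_cast h3
    refine h4.trans ?_
    have h5 := sqrt_nat_le (2 ^ (N + 1))
    push_cast at h5
    gcongr
  rw [hsplit]
  refine add_le_add ?_ hc2
  refine hc1.trans (le_of_eq ?_)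
  push_cast
  ring

end Pool.Agent.W_420c7c_h24
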