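import Pool.Agent.W_420c7c_h24.E

/-! MP_420c7c_nt, density theorem. -/

set_option autoImplicit false
open Polynomial Finset Filter Topology

namespace Pool.Agent.W_420c7c_h24

/-- Summation over dyadic blocks. -/
theorem sum_blocks (P : ℕ → Prop) [DecidablePred P] (g : ℕ → ℝ) (N₀ : ℕ)
    (hg : ∀ N, N₀ ≤ N → (((Ico (2 ^ N) (2 ^ (N + 1))).filter P).card : ℝ) ≤ g N)
    (hmono : ∀ N M, N₀ ≤ N → N ≤ M → g N ≤ g M) (hg0 : ∀ N, 0 ≤ g N) (x : ℕ) :
    (((Icc 2 x).filter P).card : ℝ) ≤ 2 ^ N₀ + (Nat.log 2 x + 1) * g (Nat.log 2 x) := by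
  classical
  set M := Nat.log 2 x with hM
  have h1 : (Icc 2 x).filter P ⊆ range (2 ^ N₀) ∪
      (Ico N₀ (M + 1)).biUnion fun N => (Ico (2 ^ N) (2 ^ (N + 1))).filter P := by
    intro n hn
    rw [mem_filter, mem_Icc] at hn
    have hn0 : n ≠ 0 := by omega
    have h2 : 2 ^ Nat.log 2 n ≤ n := Nat.pow_log_le_self 2 hn0
    have h3 : n < 2 ^ (Nat.log 2 n + 1) := Nat.lt_pow_succ_log_self (by norm_num) n
    rw [mem_union]
    by_cases h4 : Nat.log 2 n < N₀
    · left
      rw [mem_range]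
      exact lt_of_lt_of_le h3 (Nat.pow_le_pow_right (by norm_num) (by omega))
    · right
      rw [mem_biUnion]
      refine ⟨Nat.log 2 n, ?_, ?_⟩
      · rw [mem_Ico]
        have h5 : Nat.log 2 n ≤ M := Nat.log_mono_right hn.1.2
        omega
      · rw [mem_filter, mem_Ico]
        exact ⟨⟨h2, h3⟩, hn.2⟩
  have h2 : (((Icc 2 x).filter P).card : ℝ) ≤ 2 ^ N₀ +
      ∑ N ∈ Ico N₀ (M + 1), (((Ico (2 ^ N) (2 ^ (N + 1))).filter P).card : ℝ) := by
    have h3 := (card_le_card h1).trans ((card_union_le _ _).trans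
      (Nat.add_le_add_left card_biUnion_le _))
    rw [card_range] at h3
    exact_mod_cast h3
  refine h2.trans ?_
  have h3 : ∑ N ∈ Ico N₀ (M + 1), (((Ico (2 ^ N) (2 ^ (N + 1))).filter P).card : ℝ) ≤
      ∑ N ∈ Ico N₀ (M + 1), g M := by
    refine sum_le_sum fun N hN => ?_
    rw [mem_Ico] at hN
    exact (hg N hN.1).trans (hmono N M hN.1 (by omega))
  have h4 : ∑ N ∈ Ico N₀ (M + 1), g M ≤ ((M : ℝ) + 1) * g M := by
    rw [sum_const, nsmul_eq_mul]
    refine mul_le_mul_of_nonneg_right ?_ (hg0 M)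
    have h5 : (Ico N₀ (M + 1)).card ≤ M + 1 := by
      rw [Nat.card_Ico]
      omega
    exact_mod_cast h5
  linarith

theorem sqrtlog_mono {a b : ℝ} (ha : 1 ≤ a) (hab : a ≤ b) :
    √a * Real.log a ≤ √b * Real.log b := by
  have h1 := Real.sqrt_le_sqrt hab
  have h2 := Real.log_le_log (by linarith) hab
  have h3 := Real.log_nonneg ha
  exact mul_le_mul h1 h2 h3 (Real.sqrt_nonneg b)

theorem log_nat_le {x : ℕ} (hx : 1 ≤ x) : ((Nat.log 2 x : ℕ) : ℝ) ≤ 2 * Real.log x := by
  have h1 : (2 : ℝ) ^ Nat.log 2 x ≤ x := by exact_mod_cast Nat.pow_log_le_self 2 (by omega)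
  have h2 := Real.log_le_log (by positivity) h1
  rw [Real.log_pow] at h2
  have h3 := Real.log_two_gt_d9
  have h4 : (0 : ℝ) ≤ (Nat.log 2 x : ℕ) := Nat.cast_nonneg _
  nlinarith

open Classical in
/-- the density theorem -/
theorem main_S : ∃ C : ℝ, ∃ x₀ : ℕ, ∀ x : ℕ, x₀ ≤ x →
    (((Icc 2 x).filter fun n => ¬ n.Prime ∧ CS n).card : ℝ) ≤
      √x * Real.exp (C * (√(Real.log x) * Real.log (Real.log x))) := by
  obtain ⟨N₀, hN₀⟩ := eventually_atTop.1 block_S
  set g : ℕ → ℝ := fun N => √(2 ^ (N + 1)) * Real.exp (100 * (√(N : ℝ) * Real.log N)) with hg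
  have hsum := sum_blocks (fun n => ¬ n.Prime ∧ CS n) g (N₀ + 1)
    (fun N hN => by
      have := hN₀ N (by omega)
      simpa [BS, hg] using this)
    (fun N M hN hNM => by
      simp only [hg]
      have h1 : (1 : ℝ) ≤ N := by exact_mod_cast (by omega : 1 ≤ N)
      have h2 : (N : ℝ) ≤ M := by exact_mod_cast hNM
      have h3 := sqrtlog_mono h1 h2
      have h4 : (2 : ℝ) ^ (N + 1) ≤ 2 ^ (M + 1) :=
        pow_le_pow_right₀ (by norm_num) (by omega)
      exact mul_le_mul (Real.sqrt_le_sqrt h4) (Real.exp_le_exp.2 (by linarith))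
        (Real.exp_pos _).le (Real.sqrt_nonneg _))
    (fun N => by simp only [hg]; positivity)
  refine ⟨405, max 3 (max (2 ^ (2 * N₀ + 2)) (Nat.ceil (Real.exp (Real.exp 2)))), fun x hx => ?_⟩
  have hx3 : 3 ≤ x := (le_max_left _ _).trans hx
  have hxN : 2 ^ (2 * N₀ + 2) ≤ x := (le_max_left _ _).trans ((le_max_right _ _).trans hx)
  have hxe : Real.exp (Real.exp 2) ≤ x :=
    (Nat.le_ceil _).trans (by exact_mod_cast (le_max_right _ _).trans ((le_max_right _ _).trans hx))
  refine (hsum x).trans ?_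
  set M := Nat.log 2 x with hM
  have hx0 : (0 : ℝ) < x := by exact_mod_cast (by omega : 0 < x)
  set u : ℝ := Real.log x with hu
  have hu1 : Real.exp 2 ≤ u := by
    rw [hu, Real.le_log_iff_exp_le hx0]
    exact hxe
  have hu0 : 0 < u := (Real.exp_pos 2).trans_le hu1
  have hlu : 2 ≤ Real.log u := by
    rw [Real.le_log_iff_exp_le hu0]
    exact hu1
  have hu7 : 3 ≤ u := by
    have h1 := Real.add_one_le_exp (2 : ℝ)
    linarith
  have hsu1 : 1 ≤ √u := by
    rw [Real.one_le_sqrt]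
    linarith
  set W : ℝ := √u * Real.log u with hW
  have hW2 : Real.log u ≤ W := by
    rw [hW]
    nlinarith
  have hW0 : 2 ≤ W := hlu.trans hW2
  have hMu : (M : ℝ) ≤ 2 * u := log_nat_le (by omega)
  -- the first term
  have e1 : (2 : ℝ) ^ (N₀ + 1) ≤ √x := by
    refine Real.le_sqrt_of_sq_le ?_
    rw [← pow_mul]
    have h1 : (N₀ + 1) * 2 = 2 * N₀ + 2 := by ring
    rw [h1]
    exact_mod_cast hxN
  -- the factor
  have e2 : (M : ℝ) + 1 ≤ Real.exp (2 * W) := by
    have h1 : (M : ℝ) + 1 ≤ u ^ 2 := by nlinarith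
    have h2 : u ^ 2 = Real.exp (2 * Real.log u) := by
      rw [mul_comm, Real.exp_mul, Real.exp_log hu0]
      norm_num
    rw [h2] at h1
    exact h1.trans (Real.exp_le_exp.2 (by linarith))
  -- g M
  have e3 : g M ≤ √x * Real.exp (1 + 400 * W) := by
    simp only [hg]
    have h1 : √((2 : ℝ) ^ (M + 1)) ≤ √x * Real.exp 1 := by
      have h2 : (2 : ℝ) ^ (M + 1) ≤ 2 * x := by
        rw [pow_succ]
        have h3 : (2 : ℝ) ^ M ≤ x := by exact_mod_cast Nat.pow_log_le_self 2 (by omega)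
        linarith
      have h3 : √((2 : ℝ) ^ (M + 1)) ≤ √(2 * x) := Real.sqrt_le_sqrt h2
      rw [Real.sqrt_mul (by norm_num), mul_comm] at h3
      refine h3.trans (mul_le_mul_of_nonneg_left ?_ (Real.sqrt_nonneg _))
      have h4 : √(2 : ℝ) ≤ 2 := by
        rw [Real.sqrt_le_iff]
        norm_num
      have h5 := Real.add_one_le_exp (1 : ℝ)
      linarith
    have h2 : √(M : ℝ) * Real.log M ≤ 4 * W := by
      rcases Nat.eq_zero_or_pos M with h0 | h0
      · rw [h0]
        simp
        linarith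
      · have h3 : (1 : ℝ) ≤ M := by exact_mod_cast h0
        have h4 : √(M : ℝ) ≤ 2 * √u := by
          rw [Real.sqrt_le_iff]
          refine ⟨by positivity, ?_⟩
          rw [mul_pow, Real.sq_sqrt hu0.le]
          linarith
        have h5 : Real.log M ≤ 2 * Real.log u := by
          have h6 : Real.log M ≤ Real.log (u ^ 2) :=
            Real.log_le_log (by linarith) (by nlinarith)
          rw [Real.log_pow] at h6
          simpa using h6
        calc √(M : ℝ) * Real.log M ≤ (2 * √u) * (2 * Real.log u) :=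
              mul_le_mul h4 h5 (Real.log_nonneg h3) (by positivity)
          _ = 4 * W := by rw [hW]; ring
    calc √((2 : ℝ) ^ (M + 1)) * Real.exp (100 * (√(M : ℝ) * Real.log M))
        ≤ (√x * Real.exp 1) * Real.exp (400 * W) := by
          refine mul_le_mul h1 (Real.exp_le_exp.2 (by linarith)) (Real.exp_pos _).le
            (by positivity)
      _ = √x * Real.exp (1 + 400 * W) := by rw [Real.exp_add]; ring
  calc (2 : ℝ) ^ (N₀ + 1) + (M + 1) * g M
      ≤ √x * 1 + Real.exp (2 * W) * (√x * Real.exp (1 + 400 * W)) := by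
        refine add_le_add (by linarith) (mul_le_mul e2 e3 (by simp only [hg]; positivity)
          (Real.exp_pos _).le)
    _ = √x * (1 + Real.exp (1 + 402 * W)) := by
        rw [show 1 + 402 * W = 2 * W + (1 + 400 * W) by ring, Real.exp_add (2 * W)]
        ring
    _ ≤ √x * Real.exp (405 * W) := by
        refine mul_le_mul_of_nonneg_left ?_ (Real.sqrt_nonneg _)
        have h1 : Real.exp (405 * W) = Real.exp (1 + 402 * W) * Real.exp (3 * W - 1) := by
          rw [← Real.exp_add]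
          congr 1
          ring
        have h2 : 2 ≤ Real.exp (3 * W - 1) := by
          have := Real.add_one_le_exp (3 * W - 1)
          linarith
        have h3 : 1 ≤ Real.exp (1 + 402 * W) := Real.one_le_exp (by linarith)
        rw [h1]
        nlinarith

end Pool.Agent.W_420c7c_h24
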